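import Pool.Agent.PFS.StmtsH

/-! Squad PFS, hyperbolicity half: row TRI. -/

set_option autoImplicit false

open Matrix Filter Topology

namespace Pool.Agent.PFS.H90

variable {n : ℕ}

/-- positive combinations -/
lemma comb_mem {C : Set (V n)} (h : PCone C) {x y : V n} (hx : x ∈ closure C) (hy : y ∈ closure C)
    (hxy : x + y ∈ C) {a b : ℝ} (ha : 0 < a) (hb : 0 < b) : a • x + b • y ∈ C := by
  have hm : 0 < min a b := lt_min ha hb
  have e : a • x + b • y = min a b • (x + y) + ((a - min a b) • x + (b - min a b) • y) := by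
    module
  rw [e]
  refine h.add_cl (h.smul _ hxy _ hm) (h.cl_add (h.cl_smul hx ?_) (h.cl_smul hy ?_))
  · linarith [min_le_left a b]
  · linarith [min_le_right a b]

/-- the largest multiple of `p` below `r` -/
lemma exists_max {C : Set (V n)} (h : PCone C) {p r : V n} (hp : p ∈ closure C) (hp0 : p ≠ 0)
    (hr : r ∈ closure C) :
    ∃ ε : ℝ, 0 ≤ ε ∧ r - ε • p ∈ closure C ∧ ∀ ε' : ℝ, r - ε' • p ∈ closure C → ε' ≤ ε := by
  obtain ⟨B, hB, hn⟩ := h.normal
  have hpn : 0 < ‖p‖ := norm_pos_iff.mpr hp0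
  let S : Set ℝ := {ε | 0 ≤ ε ∧ r - ε • p ∈ closure C}
  have hcl : IsClosed S := by
    have h1 : IsClosed {ε : ℝ | 0 ≤ ε} := isClosed_Ici
    have h2 : IsClosed {ε : ℝ | r - ε • p ∈ closure C} :=
      isClosed_closure.preimage (f := fun ε : ℝ => r - ε • p) (by fun_prop)
    exact h1.inter h2
  have hsub : S ⊆ Set.Icc 0 (B * ‖r‖ / ‖p‖) := by
    rintro ε ⟨h0, h1⟩
    refine ⟨h0, ?_⟩
    rw [le_div_iff₀ hpn]
    have := hn (ε • p) r (h.cl_smul hp h0) h1
    rwa [norm_smul, Real.norm_of_nonneg h0] at this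
  have hcomp : IsCompact S := isCompact_Icc.of_isClosed_subset hcl hsub
  have hne : S.Nonempty := ⟨0, le_refl _, by rw [zero_smul, sub_zero]; exact hr⟩
  obtain ⟨ε, hε, hmax⟩ := hcomp.exists_isMaxOn hne (f := fun x : ℝ => x) continuous_id.continuousOn
  refine ⟨ε, hε.1, hε.2, fun ε' hε' => ?_⟩
  rcases le_or_gt 0 ε' with h0 | h0
  · exact hmax ⟨h0, hε'⟩
  · exact h0.le.trans hε.1

/-- the omit condition -/
lemma omit_aux {C : Set (V n)} {Γ : Subgroup (GL (Fin n) ℝ)} (h : CC C Γ) (a b q : V n)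
    (s : ℕ → ℝ) (g : ℕ → GL (Fin n) ℝ) (δ : ℕ → ℝ) (hg : ∀ m, g m ∈ Γ) (hs : ∀ m, 0 < s m)
    (hδ : Tendsto δ atTop (𝓝 0)) (wa wb wq : V n)
    (ha : Tendsto (fun m => s m • act (g m) a) atTop (𝓝 wa))
    (hb : Tendsto (fun m => s m • act (g m) b) atTop (𝓝 wb))
    (hq : Tendsto (fun m => s m • act (g m) (δ m • q)) atTop (𝓝 wq))
    (hC : wb + wq ∈ C) : ∃ η : ℝ, 0 < η ∧ b - η • a ∈ closure C := by
  obtain ⟨M, hM, hMC⟩ := h.absorb hC wa
  have ht : Tendsto (fun m => M • (s m • act (g m) b + s m • act (g m) (δ m • q))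
      - s m • act (g m) a) atTop (𝓝 (M • (wb + wq) - wa)) := ((hb.add hq).const_smul M).sub ha
  have hev := ht.eventually (h.isOpen.mem_nhds hMC)
  have hev2 : ∀ᶠ m in atTop, M • (b + δ m • q) - a ∈ C := by
    filter_upwards [hev] with m hm
    rw [← h.sact_mem_iff (hg m) (hs m)]
    have e : s m • act (g m) (M • (b + δ m • q) - a)
        = M • (s m • act (g m) b + s m • act (g m) (δ m • q)) - s m • act (g m) a := by
      rw [CC.act_sub, CC.act_smul, CC.act_add]
      module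
    rw [e]
    exact hm
  have hlim : Tendsto (fun m => M • (b + δ m • q) - a) atTop (𝓝 (M • (b + (0 : ℝ) • q) - a)) :=
    ((tendsto_const_nhds.add (hδ.smul_const q)).const_smul M).sub tendsto_const_nhds
  have hcl := mem_closure_of_tendsto hlim hev2
  rw [zero_smul, add_zero] at hcl
  refine ⟨M⁻¹, inv_pos.mpr hM, ?_⟩
  have := h.cl_smul hcl (inv_pos.mpr hM).le
  rwa [smul_sub, smul_smul, inv_mul_cancel₀ hM.ne', one_smul] at this

/-- the maximality contradiction -/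
lemma max_contra {C : Set (V n)} (h : PCone C) {p r : V n} {ε₀ ε₁ η : ℝ} (h1 : 0 ≤ ε₁)
    (hη : 0 < η) (hmax : ∀ ε' : ℝ, r - ε' • p ∈ closure C → ε' ≤ ε₀)
    (hlt : ε₀ * ε₁ < 1) (hm : (r - ε₀ • p) - η • (p - ε₁ • r) ∈ closure C) : False := by
  have hpos : 0 < 1 + η * ε₁ := by positivity
  have e : (r - ε₀ • p) - η • (p - ε₁ • r) = (1 + η * ε₁) • (r - ((ε₀ + η) / (1 + η * ε₁)) • p) := by
    have e2 : (1 + η * ε₁) • (r - ((ε₀ + η) / (1 + η * ε₁)) • p)
        = (1 + η * ε₁) • r - ((1 + η * ε₁) * ((ε₀ + η) / (1 + η * ε₁))) • p := by module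
    rw [e2, mul_div_cancel₀ _ hpos.ne']
    module
  rw [e, h.cl_smul_iff hpos] at hm
  have := hmax _ hm
  rw [div_le_iff₀ hpos] at this
  nlinarith

/-- Row TRI. -/
theorem tri (zom : ZomStmt) (flm : FlmStmt) (lim : LimStmt) : TriStmt := by
  intro n C Γ h p hp q hq r hr hpq hpr hqr
  have H := h.hul
  have hpc := H.lamCl p hp
  have hqc := H.lamCl q hq
  have hrc := H.lamCl r hr
  have hp0 := H.lamNe p hp
  have hr0 := H.lamNe r hr
  obtain ⟨ε₀, he0, hm0, hmax0⟩ := exists_max h.toPCone hpc hp0 hrc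
  obtain ⟨ε₁, he1, hm1, hmax1⟩ := exists_max h.toPCone hrc hr0 hpc
  set r' : V n := r - ε₀ • p with hr'
  set p' : V n := p - ε₁ • r with hp'
  have hcomb : ∀ a b : ℝ, 0 < a → 0 < b → a • p + b • q ∈ C := fun a b ha hb =>
    comb_mem h.toPCone hpc hqc hpq ha hb
  have hr'0 : r' ≠ 0 := by
    intro h0
    have e : r = ε₀ • p := sub_eq_zero.mp h0
    have hpos : 0 < ε₀ := by
      rcases he0.eq_or_lt with h1 | h1
      · exact absurd (by rw [e, ← h1, zero_smul]) hr0
      · exact h1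
    apply hqr
    have := hcomb ε₀ 1 hpos one_pos
    rw [one_smul, ← e, add_comm] at this
    exact this
  have hp'0 : p' ≠ 0 := by
    intro h0
    have e : p = ε₁ • r := sub_eq_zero.mp h0
    have hpos : 0 < ε₁ := by
      rcases he1.eq_or_lt with h1 | h1
      · exact absurd (by rw [e, ← h1, zero_smul]) hp0
      · exact h1
    have e2 : r = ε₁⁻¹ • p := by rw [e, smul_smul, inv_mul_cancel₀ hpos.ne', one_smul]
    apply hqr
    have := hcomb ε₁⁻¹ 1 (inv_pos.mpr hpos) one_pos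
    rw [one_smul, ← e2, add_comm] at this
    exact this
  have hr'L : r' ∈ LamC C Γ := by
    refine flm n C Γ h r hr r' hm0 hr'0 ?_
    have e : r - r' = ε₀ • p := by rw [hr']; abel
    rw [e]; exact h.cl_smul hpc he0
  have hp'L : p' ∈ LamC C Γ := by
    refine flm n C Γ h p hp p' hm1 hp'0 ?_
    have e : p - p' = ε₁ • r := by rw [hp']; abel
    rw [e]; exact h.cl_smul hrc he1
  have hlt : ε₀ * ε₁ < 1 := by
    by_contra hge
    rw [not_lt] at hge
    apply hp'0
    refine h.salient p' hm1 ?_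
    have e : -p' = ε₁ • r' + (ε₀ * ε₁ - 1) • p := by
      rw [hp', hr']; module
    rw [e]
    exact h.cl_add (h.cl_smul hm0 he1) (h.cl_smul hpc (by linarith))
  have hlt' : ε₁ * ε₀ < 1 := by rwa [mul_comm] at hlt
  have hmN : p' + r' ∉ C := by
    intro hm
    apply hpr
    refine h.mem_of_le hm ?_
    have e : p + r - (p' + r') = ε₁ • r + ε₀ • p := by rw [hp', hr']; abel
    rw [e]
    exact h.cl_add (h.cl_smul hrc he1) (h.cl_smul hpc he0)
  have hmq : ∀ η : ℝ, 0 < η → (p' + r') + η • q ∈ C := by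
    intro η hη
    have hK : 0 < 1 + ε₁ := by linarith
    rw [← h.smul_iff hK]
    have e : (1 + ε₁) • ((p' + r') + η • q)
        = ((1 - ε₀ * ε₁) • p + ((1 + ε₁) * η) • q) + (ε₁ • p' + r') := by
      rw [hp', hr']; module
    rw [e]
    exact h.add_cl (hcomb _ _ (by linarith) (by positivity)) (h.cl_add (h.cl_smul hm1 he1) hm0)
  -- zoom
  let δ : ℕ → ℝ := fun N => 1 / ((N : ℝ) + 1)
  have hδpos : ∀ N, 0 < δ N := fun N => by positivity
  have hδlim : Tendsto δ atTop (𝓝 0) := tendsto_one_div_add_atTop_nhds_zero_nat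
  have hqH := H.lamHull q hq
  have hp'H := H.lamHull p' hp'L
  have hr'H := H.lamHull r' hr'L
  obtain ⟨φ, g, s, x, hφ, hg, hs, hx, hlim⟩ := zom n C Γ h (fun N => (p' + r') + δ N • q)
    (fun N => hmq _ (hδpos N)) (fun N => H.add _ (H.add _ hp'H _ hr'H) _ (H.smul _ hqH _ (hδpos N)))
  let y : ℕ → Fin 3 → V n := fun m => ![s m • act (g m) p', s m • act (g m) r',
    s m • act (g m) (δ (φ m) • q)]
  have hyH : ∀ m i, y m i ∈ Hull C Γ := by
    intro m i
    fin_cases i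
    · exact H.smul _ (H.act _ hp'H _ (hg m)) _ (hs m)
    · exact H.smul _ (H.act _ hr'H _ (hg m)) _ (hs m)
    · exact H.smul _ (H.act _ (H.smul _ hqH _ (hδpos _)) _ (hg m)) _ (hs m)
  have hysum : ∀ m, ∑ i, y m i = s m • act (g m) ((p' + r') + δ (φ m) • q) := by
    intro m
    rw [Fin.sum_univ_three]
    change s m • act (g m) p' + s m • act (g m) r' + s m • act (g m) (δ (φ m) • q) = _
    rw [CC.act_add, CC.act_add]
    module
  have hylim : Tendsto (fun m => ∑ i, y m i) atTop (𝓝 x) := by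
    simp_rw [hysum]
    exact hlim
  obtain ⟨ψ, w, hψ, hw, -, hpes⟩ := lim n C Γ h (Fin 3) (by simp) y x hyH hx hylim
  refine ⟨w, hpes ?_⟩
  have w0 : Tendsto (fun m => s (ψ m) • act (g (ψ m)) p') atTop (𝓝 (w 0)) := hw 0
  have w1 : Tendsto (fun m => s (ψ m) • act (g (ψ m)) r') atTop (𝓝 (w 1)) := hw 1
  have w2 : Tendsto (fun m => s (ψ m) • act (g (ψ m)) (δ (φ (ψ m)) • q)) atTop (𝓝 (w 2)) := hw 2
  have hδ2 : Tendsto (fun m => δ (φ (ψ m))) atTop (𝓝 0) :=
    hδlim.comp (hφ.tendsto_atTop.comp hψ.tendsto_atTop)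
  intro i hi
  fin_cases i
  · -- omit 0
    have e : ∑ j ∈ Finset.univ.erase (0 : Fin 3), w j = w 1 + w 2 := by
      rw [show Finset.univ.erase (0 : Fin 3) = {1, 2} from by decide]
      rw [Finset.sum_pair (by decide)]
    have hi' : w 1 + w 2 ∈ C := by rw [← e]; exact hi
    obtain ⟨η, hη, hcl⟩ := omit_aux h p' r' q (fun m => s (ψ m)) (fun m => g (ψ m))
      (fun m => δ (φ (ψ m))) (fun m => hg _) (fun m => hs _) hδ2 (w 0) (w 1) (w 2) w0 w1 w2 hi'
    exact max_contra h.toPCone he1 hη hmax0 hlt hcl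
  · have e : ∑ j ∈ Finset.univ.erase (1 : Fin 3), w j = w 0 + w 2 := by
      rw [show Finset.univ.erase (1 : Fin 3) = {0, 2} from by decide]
      rw [Finset.sum_pair (by decide)]
    have hi' : w 0 + w 2 ∈ C := by rw [← e]; exact hi
    obtain ⟨η, hη, hcl⟩ := omit_aux h r' p' q (fun m => s (ψ m)) (fun m => g (ψ m))
      (fun m => δ (φ (ψ m))) (fun m => hg _) (fun m => hs _) hδ2 (w 1) (w 0) (w 2) w1 w0 w2 hi'
    exact max_contra h.toPCone he0 hη hmax1 hlt' hcl
  · have e : ∑ j ∈ Finset.univ.erase (2 : Fin 3), w j = w 0 + w 1 := by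
      rw [show Finset.univ.erase (2 : Fin 3) = {0, 1} from by decide]
      rw [Finset.sum_pair (by decide)]
    have hi' : w 0 + w 1 ∈ C := by rw [← e]; exact hi
    obtain ⟨m, hm⟩ := ((w0.add w1).eventually (h.isOpen.mem_nhds hi')).exists
    apply hmN
    rw [← h.sact_mem_iff (hg (ψ m)) (hs (ψ m))]
    rw [CC.act_add, smul_add]
    exact hm

end Pool.Agent.PFS.H90
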